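import Mathlib
import Pool.Agent.PSys.Main

/-! Almost all consistent path systems are metric. -/

open Filter

namespace Pool.Agent.Results.MP_ec065d_co.AlmostAllMetric

open PSys

/-- The proportion of metric path systems among the consistent path systems on `n` labelled
vertices tends to `1`; in particular it does not tend to `0`. -/
theorem result :
    Tendsto (fun n : ℕ =>
      ({P : Fin n → Fin n → List (Fin n) | IsCPS P ∧ IsMetric P}.ncard : ℝ) /
        ({P : Fin n → Fin n → List (Fin n) | IsCPS P}.ncard : ℝ)) atTop (nhds 1) ∧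
    ¬ Tendsto (fun n : ℕ =>
      ({P : Fin n → Fin n → List (Fin n) | IsCPS P ∧ IsMetric P}.ncard : ℝ) /
        ({P : Fin n → Fin n → List (Fin n) | IsCPS P}.ncard : ℝ)) atTop (nhds 0) := by
  refine ⟨ratio_tendsto, fun h => ?_⟩
  exact one_ne_zero (tendsto_nhds_unique ratio_tendsto h)

end Pool.Agent.Results.MP_ec065d_co.AlmostAllMetric
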